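import Pool.Agent.AT6.Stmts3
import Pool.Agent.Helper50_PP.Ffa

/-!
# Squad AT6, row EQM: equality of the numbers `Mm (v z)` and `Mm v`
-/

set_option autoImplicit false

open scoped BigOperators

noncomputable section

namespace Pool.Agent.PP.T6.H72

open Pool.Agent.Helper51_AWC Pool.Agent.Helper79_WRA Pool.Agent.PP Pool.Agent.PP.KF
open Pool.Agent.PP.K9 Pool.Agent.PP.K9.H97 Pool.Agent.PP.H75 Pool.Agent.PP.T3 Pool.Agent.PP.T2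

attribute [local instance] Ideal.Quotient.field

theorem uw_le {G : Type} [Group G] (n : ℕ) (V : Subgroup G) : Uw n V ≤ V := by
  unfold Uw
  rw [Subgroup.closure_le]
  rintro _ ⟨x, hx, rfl⟩
  exact V.pow_mem hx n

theorem mem_un {ℓ a j : ℕ} (h : j ∈ un ℓ a) : ¬ ℓ ∣ j := by
  unfold un at h
  exact (Finset.mem_filter.1 h).2

theorem un_pos {ℓ a : ℕ} (hℓ : ℓ.Prime) (ha : 0 < a) : 0 < (un ℓ a).card := by
  apply Finset.card_pos.2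
  refine ⟨1, ?_⟩
  unfold un
  rw [Finset.mem_filter, Finset.mem_range]
  refine ⟨Nat.one_lt_pow ha.ne' hℓ.one_lt, ?_⟩
  intro h
  exact hℓ.one_lt.ne' (Nat.dvd_one.1 h)

/-- arithmetic and geometric mean -/
theorem amgm {ι : Type} (s : Finset ι) (hs : 0 < s.card) (f : ι → ℝ) (hf : ∀ i ∈ s, 0 ≤ f i)
    (c : ℝ) (hc : 0 ≤ c) (h : c ^ s.card ≤ ∏ i ∈ s, f i) : c * s.card ≤ ∑ i ∈ s, f i := by
  have hm : (0 : ℝ) < s.card := by exact_mod_cast hs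
  have h1 := Real.geom_mean_le_arith_mean_weighted s (fun _ => (s.card : ℝ)⁻¹) f
    (fun i _ => by positivity) (by
      rw [Finset.sum_const, nsmul_eq_mul]
      exact mul_inv_cancel₀ hm.ne') hf
  rw [Real.finsetProd_rpow s f hf, ← Finset.mul_sum] at h1
  have h2 : c ≤ (∏ i ∈ s, f i) ^ ((s.card : ℝ)⁻¹) := by
    have h3 : (c ^ s.card) ^ ((s.card : ℝ)⁻¹) = c := Real.pow_rpow_inv_natCast hc hs.ne'
    rw [← h3]
    exact Real.rpow_le_rpow (pow_nonneg hc _) h (by positivity)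
  have h4 := h2.trans h1
  rw [inv_mul_eq_div, le_div_iff₀ hm] at h4
  exact h4

/-- EQM. -/
theorem eqm (inm : InmStmt) (psv : PsvStmt) (nrp : NrpStmt) (apx : ApxStmt) (lpw : T3.LpwStmt) :
    EqmStmt := by
  intro ℓ hℓ M hMm hM G _ _ N hG5 e V γ hLd c a ha K hK v hv hva z hz hza b b' hb hb' χ hχ χ' hχ'
    s1 s2 s3 s4 j₀ hj₀
  have hF : GoodF ℓ (FF M) := H50.fld ℓ Fact.out M hM
  have hzV : z ∈ V := uw_le _ V hz
  have hvz : v * z = z * v := hLd.ab v hv z hzV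
  have hvzV : v * z ∈ V := V.mul_mem hv hzV
  have hvza : (v * z) ^ ℓ ^ a = 1 := by
    rw [(show Commute v z from hvz).mul_pow, hva, hza, one_mul]
  have hL1 : ∀ j : ℕ, ¬ ℓ ∣ j → Lc e V γ (v ^ j) b := fun j hj =>
    (lpw ℓ (FF M) hF G e V γ hLd v hv b hb j hj).2
  have hL2 : ∀ j : ℕ, ¬ ℓ ∣ j → Lc e V γ ((v * z) ^ j) b' := fun j hj =>
    (lpw ℓ (FF M) hF G e V γ hLd (v * z) hvzV b' hb' j hj).2
  have hI : χ ∈ Irr G := hχ.1.1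
  have hI' : χ' ∈ Irr G := hχ'.1.1
  obtain ⟨ζ, hζ⟩ : ∃ ζ : ℂ, IsPrimitiveRoot ζ (ℓ ^ a) :=
    ⟨_, Complex.isPrimitiveRoot_exp (ℓ ^ a) (pow_ne_zero a hℓ.out.ne_zero)⟩
  obtain ⟨n1, hn1⟩ := inm ℓ M hM G e V γ hLd v hv b hb a hva ζ hζ χ hI χ' hI'
  obtain ⟨n2, hn2⟩ := inm ℓ M hM G e V γ hLd (v * z) hvzV b' hb' a hvza ζ hζ χ hI χ' hI'
  have hy : ∀ j : ℕ, ¬ ℓ ∣ j →
      ∑ i ∈ Finset.range (ℓ ^ a), (((fun i => n2 i - n1 i) i : ℤ) : ℂ) * ζ ^ (i * j) =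
        Mm M ℓ V γ ((v * z) ^ j) b' χ χ' - Mm M ℓ V γ (v ^ j) b χ χ' := by
    intro j hj
    rw [hn1 j hj, hn2 j hj, ← Finset.sum_sub_distrib]
    apply Finset.sum_congr rfl
    intro i _
    push_cast
    ring
  have hD : ∀ j : ℕ, ¬ ℓ ∣ j → Dv M ((ℓ : ℂ) ^ c)
      (∑ i ∈ Finset.range (ℓ ^ a), (((fun i => n2 i - n1 i) i : ℤ) : ℂ) * ζ ^ (i * j)) := by
    intro j hj
    rw [hy j hj]
    have hpow : (v * z) ^ j = v ^ j * z ^ j := (show Commute v z from hvz).mul_pow j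
    have h2 := hL2 j hj
    rw [hpow] at h2 ⊢
    exact apx ℓ M hM G N hG5 e V γ hLd c χ hχ χ' hχ' (v ^ j) (V.pow_mem hv j) (z ^ j)
      ((Uw (ℓ ^ (3 * c + 1)) V).pow_mem hz j) b b' (hL1 j hj) h2
  by_contra hne
  have hne' : ∑ i ∈ Finset.range (ℓ ^ a), (((fun i => n2 i - n1 i) i : ℤ) : ℂ) * ζ ^ (i * j₀) ≠
      0 := by
    rw [hy j₀ hj₀]
    exact sub_ne_zero.2 hne
  have hP := nrp ℓ M hM a c ha ζ hζ (fun i => n2 i - n1 i) hD j₀ hj₀ hne'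
  have hcard := un_pos hℓ.out ha
  have hA := amgm (un ℓ a) hcard
    (fun j => ‖∑ i ∈ Finset.range (ℓ ^ a), (((fun i => n2 i - n1 i) i : ℤ) : ℂ) * ζ ^ (i * j)‖)
    (fun j _ => norm_nonneg _) ((ℓ : ℝ) ^ c) (by positivity) hP
  have hB : ∑ j ∈ un ℓ a,
      ‖∑ i ∈ Finset.range (ℓ ^ a), (((fun i => n2 i - n1 i) i : ℤ) : ℂ) * ζ ^ (i * j)‖ ≤
      ∑ j ∈ un ℓ a, ((‖Mm M ℓ V γ ((v * z) ^ j) b' χ χ‖ + ‖Mm M ℓ V γ ((v * z) ^ j) b' χ' χ'‖) / 2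
        + (‖Mm M ℓ V γ (v ^ j) b χ χ‖ + ‖Mm M ℓ V γ (v ^ j) b χ' χ'‖) / 2) := by
    apply Finset.sum_le_sum
    intro j hj
    have hj' := mem_un hj
    rw [hy j hj']
    refine (norm_sub_le _ _).trans ?_
    have hcs : ∀ x p q : ℝ, 0 ≤ x → 0 ≤ p → 0 ≤ q → x ^ 2 ≤ p * q → x ≤ (p + q) / 2 := by
      intro x p q hx hp hq h
      have h1 : x ^ 2 ≤ ((p + q) / 2) ^ 2 := by nlinarith [sq_nonneg (p - q)]
      exact (pow_le_pow_iff_left₀ hx (by positivity) two_ne_zero).1 h1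
    have e1 := (psv ℓ M hM G e V γ hLd ((v * z) ^ j) (V.pow_mem hvzV j) b' (hL2 j hj')).2.2 χ χ'
    have e2 := (psv ℓ M hM G e V γ hLd (v ^ j) (V.pow_mem hv j) b (hL1 j hj')).2.2 χ χ'
    exact add_le_add (hcs _ _ _ (norm_nonneg _) (norm_nonneg _) (norm_nonneg _) e1)
      (hcs _ _ _ (norm_nonneg _) (norm_nonneg _) (norm_nonneg _) e2)
  rw [Finset.sum_add_distrib, ← Finset.sum_div, ← Finset.sum_div, Finset.sum_add_distrib,
    Finset.sum_add_distrib] at hB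
  have hm : (0 : ℝ) < (un ℓ a).card := by exact_mod_cast hcard
  have hfin : (ℓ : ℝ) ^ c * (un ℓ a).card ≤ 2 * K * (un ℓ a).card := by
    refine (hA.trans hB).trans ?_
    linarith
  exact absurd (le_of_mul_le_mul_right hfin hm) (not_le.2 hK)

end Pool.Agent.PP.T6.H72
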